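import Pool.Agent.Helper4.T7.StD

/-! # Project T7 (levels `7·5^n`): module ExA (the edge functions of a solution of the relation) -/

set_option autoImplicit false

namespace Pool.Agent.Helper2.T7

open Pool.Agent.Helper14.W5 (tr5 S5Trm)
open Pool.Agent.Helper4.T7

private theorem ndm {a b : ℤ} (ha : ¬ (5 : ℤ) ∣ a) (hb : ¬ (5 : ℤ) ∣ b) : ¬ (5 : ℤ) ∣ a * b := by
  intro h
  rcases (Int.prime_ofNat_iff.2 (by norm_num : Nat.Prime 5)).dvd_or_dvd h with h | h
  · exact ha h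
  · exact hb h

private theorem cop {r : ℕ} {a : ℤ} (h : ¬ (5 : ℤ) ∣ a) : IsUnit ((a : ℤ) : ZMod (5 ^ r)) := by
  have h1 : IsCoprime a 5 := by
    have := (Int.prime_ofNat_iff.2 (by norm_num : Nat.Prime 5)).coprime_iff_not_dvd.2 h
    exact this.symm
  have h2 : IsCoprime a ((5 ^ r : ℕ) : ℤ) := by
    push_cast
    exact h1.pow_right
  exact (ZMod.coe_int_isUnit_iff_isCoprime a (5 ^ r)).2 h2.symm

private theorem den {r : ℕ} {a c : ℤ} (x : ZMod (5 ^ r)) (h : ¬ (5 : ℤ) ∣ a) :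
    IsUnit ((a : ZMod (5 ^ r)) + 5 * c * x) := by
  have : NeZero (5 ^ r) := ⟨pow_ne_zero _ (by norm_num)⟩
  have : (a : ZMod (5 ^ r)) + 5 * c * x = ((a + 5 * c * (x.val : ℤ) : ℤ) : ZMod (5 ^ r)) := by
    push_cast
    rw [ZMod.natCast_zmod_val]
  rw [this]
  apply cop
  intro h3
  exact h ((dvd_add_left (⟨c * (x.val : ℤ), by ring⟩ : (5 : ℤ) ∣ 5 * c * (x.val : ℤ))).1 h3)

private theorem res {a b c d : ℤ} (h : ¬ (5 : ℤ) ∣ a * d - 5 * (b * c)) :
    ¬ (5 : ℤ) ∣ a ∧ ¬ (5 : ℤ) ∣ d := by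
  constructor
  · rintro ⟨k, rfl⟩
    exact h ⟨k * d - b * c, by ring⟩
  · rintro ⟨k, rfl⟩
    exact h ⟨a * k - b * c, by ring⟩

/-- `(a b; 5c d)` has the coordinates `(x, y)` -/
private def Pt {r s : ℕ} (a b c d : ℤ) (x : ZMod (5 ^ r)) (y : ZMod (5 ^ s)) : Prop :=
  ¬ (5 : ℤ) ∣ a ∧ ¬ (5 : ℤ) ∣ d ∧ (b : ZMod (5 ^ r)) = x * a ∧ (c : ZMod (5 ^ s)) = y * d

private theorem pt_mk (r s : ℕ) {a b c d : ℤ} (ha : ¬ (5 : ℤ) ∣ a) (hd : ¬ (5 : ℤ) ∣ d) :
    ∃ (x : ZMod (5 ^ r)) (y : ZMod (5 ^ s)), Pt a b c d x y := by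
  refine ⟨(b : ZMod (5 ^ r)) * (a : ZMod (5 ^ r))⁻¹, (c : ZMod (5 ^ s)) * (d : ZMod (5 ^ s))⁻¹,
    ha, hd, ?_, ?_⟩
  · rw [mul_assoc, ZMod.inv_mul_of_unit _ (cop ha), mul_one]
  · rw [mul_assoc, ZMod.inv_mul_of_unit _ (cop hd), mul_one]

private theorem pt_scale {r s : ℕ} {a b c d k A B C D : ℤ} {x : ZMod (5 ^ r)} {y : ZMod (5 ^ s)}
    (h : Pt a b c d x y) (hk : ¬ (5 : ℤ) ∣ k) (hA : A = k * a) (hB : B = k * b) (hC : C = k * c)
    (hD : D = k * d) : Pt A B C D x y := by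
  obtain ⟨h1, h2, h3, h4⟩ := h
  subst hA hB hC hD
  refine ⟨ndm hk h1, ndm hk h2, ?_, ?_⟩
  · push_cast
    rw [h3]
    ring
  · push_cast
    rw [h4]
    ring

private theorem pt_mul {r s : ℕ} {a b c d : ℤ} {x : ZMod (5 ^ r)} {y : ZMod (5 ^ s)}
    (h : Pt a b c d x y) {α β γ δ : ℤ} (hα : ¬ (5 : ℤ) ∣ α) (hδ : ¬ (5 : ℤ) ∣ δ) :
    Pt (a * α + 5 * b * γ) (a * β + b * δ) (c * α + d * γ) (5 * c * β + d * δ)
      (((β : ZMod (5 ^ r)) + (δ : ZMod (5 ^ r)) * x) *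
        ((α : ZMod (5 ^ r)) + 5 * (γ : ZMod (5 ^ r)) * x)⁻¹)
      (((γ : ZMod (5 ^ s)) + (α : ZMod (5 ^ s)) * y) *
        ((δ : ZMod (5 ^ s)) + 5 * (β : ZMod (5 ^ s)) * y)⁻¹) := by
  obtain ⟨h1, h2, h3, h4⟩ := h
  have u1 := ZMod.inv_mul_of_unit _ (den (r := r) (a := α) (c := γ) x hα)
  have u2 := ZMod.inv_mul_of_unit _ (den (r := s) (a := δ) (c := β) y hδ)
  refine ⟨?_, ?_, ?_, ?_⟩
  · intro h
    exact ndm h1 hα ((dvd_add_left (⟨b * γ, by ring⟩ : (5 : ℤ) ∣ 5 * b * γ)).1 h)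
  · intro h
    exact ndm h2 hδ ((dvd_add_right (⟨c * β, by ring⟩ : (5 : ℤ) ∣ 5 * c * β)).1 h)
  · push_cast
    rw [h3]
    linear_combination (-((a : ZMod (5 ^ r)) * ((β : ZMod (5 ^ r)) + δ * x))) * u1
  · push_cast
    rw [h4]
    linear_combination (-((d : ZMod (5 ^ s)) * ((γ : ZMod (5 ^ s)) + α * y))) * u2

private theorem pt_left {r s : ℕ} {a b c d : ℤ} {x : ZMod (5 ^ r)} {y : ZMod (5 ^ s)}
    (h : Pt a b c d x y) {α β γ δ A B C D : ℤ} (hα : ¬ (5 : ℤ) ∣ α) (hδ : ¬ (5 : ℤ) ∣ δ)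
    (hA : A = α * a + 5 ^ r * β * (5 * c)) (hB : B = α * b + 5 ^ r * β * d)
    (hC : C = 5 ^ s * γ * a + δ * c) (hD : D = 5 ^ (s + 1) * γ * b + δ * d) : Pt A B C D x y := by
  obtain ⟨h1, h2, h3, h4⟩ := h
  subst hA hB hC hD
  have z1 : ((5 : ℤ) ^ r : ZMod (5 ^ r)) = 0 := by
    have := ZMod.natCast_self (5 ^ r)
    push_cast at this ⊢
    exact this
  have z2 : ((5 : ℤ) ^ s : ZMod (5 ^ s)) = 0 := by
    have := ZMod.natCast_self (5 ^ s)
    push_cast at this ⊢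
    exact this
  refine ⟨?_, ?_, ?_, ?_⟩
  · intro h
    exact ndm hα h1 ((dvd_add_left
      (⟨5 ^ r * β * c, by ring⟩ : (5 : ℤ) ∣ 5 ^ r * β * (5 * c))).1 h)
  · intro h
    exact ndm hδ h2 ((dvd_add_right
      (⟨5 ^ s * γ * b, by ring⟩ : (5 : ℤ) ∣ 5 ^ (s + 1) * γ * b)).1 h)
  · push_cast at z1 ⊢
    rw [z1, h3]
    ring
  · push_cast at z2 ⊢
    rw [pow_succ, z2, h4]
    ring

/-! ### the function -/

private noncomputable def PX (r : ℕ) (a b : ℤ) : ZMod (5 ^ r) :=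
  ((b : ℤ) : ZMod (5 ^ r)) * ((a : ℤ) : ZMod (5 ^ r))⁻¹

private theorem px_eq {r : ℕ} {a b A B : ℤ} {x : ZMod (5 ^ r)} (hA : A = a) (hB : B = b)
    (ha : ¬ (5 : ℤ) ∣ a) (h : (b : ZMod (5 ^ r)) = x * a) : PX r A B = x := by
  subst hA hB
  unfold PX
  rw [h, mul_assoc, ZMod.mul_inv_of_unit _ (cop ha), mul_one]

private theorem pt_sc {r s : ℕ} {a b c d m k A B C D : ℤ} {x : ZMod (5 ^ r)} {y : ZMod (5 ^ s)}
    (h : Pt a b c d x y) (hm : ¬ (5 : ℤ) ∣ m) (hk : ¬ (5 : ℤ) ∣ k) (hA : m * A = k * a)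
    (hB : m * B = k * b) (hC : m * C = k * c) (hD : m * D = k * d) : Pt A B C D x y := by
  obtain ⟨h1, h2, h3, h4⟩ := h
  refine ⟨?_, ?_, ?_, ?_⟩
  · intro h
    exact ndm hk h1 (hA ▸ Dvd.dvd.mul_left h m)
  · intro h
    exact ndm hk h2 (hD ▸ Dvd.dvd.mul_left h m)
  · have hA' := congrArg (Int.cast : ℤ → ZMod (5 ^ r)) hA
    have hB' := congrArg (Int.cast : ℤ → ZMod (5 ^ r)) hB
    push_cast at hA' hB'
    apply (cop (r := r) hm).mul_left_cancel
    linear_combination hB' + k * h3 - x * hA'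
  · have hC' := congrArg (Int.cast : ℤ → ZMod (5 ^ s)) hC
    have hD' := congrArg (Int.cast : ℤ → ZMod (5 ^ s)) hD
    push_cast at hC' hD'
    apply (cop (r := s) hm).mul_left_cancel
    linear_combination hC' + k * h4 - y * hD'

/-! ### the classes -/

/-- The six classes of `c/d` modulo `5`. -/
private inductive K
  | k0
  | k4
  | k1
  | k3
  | ki
  | k2

private def p1 : K → ℤ
  | .k0 => 1
  | .k4 => 3
  | .k1 => 2
  | .k3 => 7
  | .ki => 7
  | .k2 => 14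

private def p2 : K → ℤ
  | .k0 => 0
  | .k4 => -1
  | .k1 => -1
  | .k3 => -4
  | .ki => -1
  | .k2 => -5

private def p3 : K → ℤ
  | .k0 => 0
  | .k4 => 7
  | .k1 => 7
  | .k3 => 14
  | .ki => 7
  | .k2 => 21

private def p4 : K → ℤ
  | .k0 => 1
  | .k4 => -2
  | .k1 => -3
  | .k3 => -7
  | .ki => 0
  | .k2 => -7

private def pe : K → ℤ
  | .k0 => 1
  | .k4 => 1
  | .k1 => 1
  | .k3 => 7
  | .ki => 7
  | .k2 => 7

private theorem e0 (t : K) : p1 t * p4 t - p2 t * p3 t = pe t := by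
  cases t <;> rfl

private theorem pe_nd (t : K) : ¬ (5 : ℤ) ∣ pe t := by
  cases t <;> simp only [pe] <;> decide

private theorem cls1 : ∀ c d : ZMod 5, c = 0 ∨ c + d = 0 ∨ c - d = 0 ∨ c - 3 * d = 0 ∨
    d = 0 ∨ c - 2 * d = 0 := by
  decide

private theorem e5d : ∀ z : ℤ, ((z : ℤ) : ZMod 5) = 0 → (5 : ℤ) ∣ z := fun z hz =>
  (ZMod.intCast_zmod_eq_zero_iff_dvd z 5).1 hz

private theorem ex (c d : ℤ) : ∃ t : K, (5 : ℤ) ∣ c * p4 t - d * p3 t := by
  rcases cls1 c d with p | p | p | p | p | p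
  · have := e5d _ p
    exact ⟨.k0, by simp only [p4, p3]; omega⟩
  · have := e5d (c + d) (by push_cast; exact p)
    exact ⟨.k4, by simp only [p4, p3]; omega⟩
  · have := e5d (c - d) (by push_cast; exact p)
    exact ⟨.k1, by simp only [p4, p3]; omega⟩
  · have := e5d (c - 3 * d) (by push_cast; exact p)
    exact ⟨.k3, by simp only [p4, p3]; omega⟩
  · have := e5d _ p
    exact ⟨.ki, by simp only [p4, p3]; omega⟩
  · have := e5d (c - 2 * d) (by push_cast; exact p)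
    exact ⟨.k2, by simp only [p4, p3]; omega⟩

private theorem uniq {c d : ℤ} (h : ¬ ((5 : ℤ) ∣ c ∧ (5 : ℤ) ∣ d)) {t t' : K}
    (h1 : (5 : ℤ) ∣ c * p4 t - d * p3 t) (h2 : (5 : ℤ) ∣ c * p4 t' - d * p3 t') : t = t' := by
  cases t <;> cases t' <;> first | rfl | (exfalso; simp only [p4, p3] at h1 h2; apply h; constructor <;> omega)

private noncomputable def T (c d : ℤ) : K := Classical.choose (ex c d)

private theorem T_spec (c d : ℤ) : (5 : ℤ) ∣ c * p4 (T c d) - d * p3 (T c d) :=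
  Classical.choose_spec (ex c d)

section

variable {R : Type} [AddCommGroup R] {r s : ℕ}

private noncomputable def W (w : K → ZMod (5 ^ r) → ZMod (5 ^ s) → R) (a b c d : ℤ) : R :=
  w (T c d) (PX r (a * p4 (T c d) - b * p3 (T c d)) (-a * p2 (T c d) + b * p1 (T c d)))
    (PX s (-c * p2 (T c d) + d * p1 (T c d)) ((c * p4 (T c d) - d * p3 (T c d)) / 5))

/-- The matrix has class `t` and coordinates `(x, y)`. -/
private def Rp (a b c d : ℤ) (t : K) (x : ZMod (5 ^ r)) (y : ZMod (5 ^ s)) : Prop :=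
  ∃ c' : ℤ, c * p4 t - d * p3 t = 5 * c' ∧
    Pt (a * p4 t - b * p3 t) (-a * p2 t + b * p1 t) c' (-c * p2 t + d * p1 t) x y

variable {w : K → ZMod (5 ^ r) → ZMod (5 ^ s) → R}

private theorem evI {a b c d : ℤ} {t : K} {x : ZMod (5 ^ r)} {y : ZMod (5 ^ s)}
    (h : Rp a b c d t x y) : W w a b c d = w t x y := by
  obtain ⟨c', e, h1, h2, h3, h4⟩ := h
  have hT : T c d = t := uniq (by
    rintro ⟨⟨u, rfl⟩, ⟨v, rfl⟩⟩
    exact h2 ⟨-u * p2 t + v * p1 t, by ring⟩) (T_spec c d) ⟨c', e⟩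
  unfold W
  rw [hT, px_eq rfl rfl h1 h3, px_eq rfl (by rw [e]; omega) h2 h4]

private theorem rp_of (r s : ℕ) {a b c d : ℤ} (h : ¬ (5 : ℤ) ∣ a * d - b * c) (t : K)
    (ht : (5 : ℤ) ∣ c * p4 t - d * p3 t) :
    ∃ (x : ZMod (5 ^ r)) (y : ZMod (5 ^ s)), Rp a b c d t x y := by
  obtain ⟨c', e⟩ := ht
  have hr := res (a := a * p4 t - b * p3 t) (b := -a * p2 t + b * p1 t) (c := c')
    (d := -c * p2 t + d * p1 t) (by
      have : (a * p4 t - b * p3 t) * (-c * p2 t + d * p1 t) - 5 * ((-a * p2 t + b * p1 t) * c') =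
          pe t * (a * d - b * c) := by
        linear_combination (a * d - b * c) * e0 t + (-a * p2 t + b * p1 t) * e
      rw [this]
      exact ndm (pe_nd t) h)
  obtain ⟨x, y, hp⟩ := pt_mk r s (b := -a * p2 t + b * p1 t) (c := c') hr.1 hr.2
  exact ⟨x, y, c', e, hp⟩

private theorem rep (r s : ℕ) {a b c d : ℤ} (h : ¬ (5 : ℤ) ∣ a * d - b * c) :
    ∃ (t : K) (x : ZMod (5 ^ r)) (y : ZMod (5 ^ s)), Rp a b c d t x y := by
  obtain ⟨t, ht⟩ := ex c d
  exact ⟨t, rp_of r s h t ht⟩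

private theorem W_scale {a b c d : ℤ} (h : ¬ (5 : ℤ) ∣ a * d - b * c) (k : ℤ)
    (hk : ¬ (5 : ℤ) ∣ k) {A B C D : ℤ} (hA : A = k * a) (hB : B = k * b) (hC : C = k * c)
    (hD : D = k * d) : W w A B C D = W w a b c d := by
  obtain ⟨t, x, y, c', e, hp⟩ := rep r s h
  rw [evI ⟨c', e, hp⟩]
  subst hA hB hC hD
  exact evI ⟨k * c', by linear_combination k * e,
    pt_scale hp hk (by ring) (by ring) rfl (by ring)⟩

private theorem W_left {a b c d α β γ δ A B C D : ℤ} (h : ¬ (5 : ℤ) ∣ a * d - b * c)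
    (hα : ¬ (5 : ℤ) ∣ α) (hδ : ¬ (5 : ℤ) ∣ δ) (hβ : (5 : ℤ) ^ r ∣ β) (hγ : (5 : ℤ) ^ (s + 1) ∣ γ)
    (hA : A = α * a + β * c) (hB : B = α * b + β * d)
    (hC : C = γ * a + δ * c) (hD : D = γ * b + δ * d) :
    W w A B C D = W w a b c d := by
  obtain ⟨β', rfl⟩ := hβ
  obtain ⟨γ', rfl⟩ := hγ
  obtain ⟨t, x, y, c', e, hp⟩ := rep r s h
  rw [evI ⟨c', e, hp⟩]
  subst hA hB hC hD
  exact evI ⟨5 ^ s * γ' * (a * p4 t - b * p3 t) + δ * c', by linear_combination δ * e,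
    pt_left (α := α) (β := β') (γ := γ') (δ := δ) hp hα hδ
      (by linear_combination (5 ^ r * β') * e) (by ring) rfl (by ring)⟩

private theorem ev {a b c d : ℤ} {x : ZMod (5 ^ r)} {y : ZMod (5 ^ s)} (hp : Pt a b c d x y)
    (t : K) {m k A B C D : ℤ} (hm : ¬ (5 : ℤ) ∣ m) (hk : ¬ (5 : ℤ) ∣ k)
    (hA : m * A = k * (a * p1 t + b * p3 t)) (hB : m * B = k * (a * p2 t + b * p4 t))
    (hC : m * C = k * (5 * c * p1 t + d * p3 t)) (hD : m * D = k * (5 * c * p2 t + d * p4 t)) :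
    W w A B C D = w t x y := by
  have hc : m * (C * p4 t - D * p3 t) = 5 * (k * pe t * c) := by
    linear_combination p4 t * hC - p3 t * hD + 5 * k * c * e0 t
  have h5 : (5 : ℤ) ∣ C * p4 t - D * p3 t := by
    rcases (Int.prime_ofNat_iff.2 (by norm_num : Nat.Prime 5)).dvd_or_dvd
      (⟨k * pe t * c, hc⟩ : (5 : ℤ) ∣ m * (C * p4 t - D * p3 t)) with h | h
    · exact absurd h hm
    · exact h
  obtain ⟨c', e⟩ := h5
  refine evI ⟨c', e, pt_sc hp hm (ndm hk (pe_nd t)) ?_ ?_ ?_ ?_⟩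
  · linear_combination p4 t * hA - p3 t * hB + k * a * e0 t
  · linear_combination (-p2 t) * hA + p1 t * hB + k * b * e0 t
  · have : (5 : ℤ) * (m * c') = 5 * (k * pe t * c) := by
      rw [← hc, e]
      ring
    exact mul_left_cancel₀ (by norm_num) this
  · linear_combination (-p2 t) * hC + p1 t * hD + k * d * e0 t

private theorem evM {a b c d : ℤ} {t : K} {x : ZMod (5 ^ r)} {y : ZMod (5 ^ s)}
    (h : Rp a b c d t x y) (t' : K) (M11 M12 M21 M22 α β γ δ m0 k0 : ℤ)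
    (hm : ¬ (5 : ℤ) ∣ m0) (hk : ¬ (5 : ℤ) ∣ k0) (hα : ¬ (5 : ℤ) ∣ α) (hδ : ¬ (5 : ℤ) ∣ δ)
    (n1 : m0 * (p1 t * M11 + p2 t * M21) = k0 * (α * p1 t' + β * p3 t'))
    (n2 : m0 * (p1 t * M12 + p2 t * M22) = k0 * (α * p2 t' + β * p4 t'))
    (n3 : m0 * (p3 t * M11 + p4 t * M21) = k0 * (5 * γ * p1 t' + δ * p3 t'))
    (n4 : m0 * (p3 t * M12 + p4 t * M22) = k0 * (5 * γ * p2 t' + δ * p4 t')) :
    mV (W w) a b c d M11 M12 M21 M22 = tr5 α β γ δ (w t') x y := by
  obtain ⟨c', e, hp⟩ := h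
  have hp' := pt_mul hp (α := α) (β := β) (γ := γ) (δ := δ) hα hδ
  unfold mV tr5
  refine ev hp' t' (m := m0 * pe t) (k := k0) (ndm hm (pe_nd t)) hk ?_ ?_ ?_ ?_
  · linear_combination (a * p4 t - b * p3 t) * n1 + (-a * p2 t + b * p1 t) * n3 -
      m0 * (a * M11 + b * M21) * e0 t
  · linear_combination (a * p4 t - b * p3 t) * n2 + (-a * p2 t + b * p1 t) * n4 -
      m0 * (a * M12 + b * M22) * e0 t
  · linear_combination (5 * c') * n1 + (-c * p2 t + d * p1 t) * n3 -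
      m0 * (c * M11 + d * M21) * e0 t + m0 * (p1 t * M11 + p2 t * M21) * e
  · linear_combination (5 * c') * n2 + (-c * p2 t + d * p1 t) * n4 -
      m0 * (c * M12 + d * M22) * e0 t + m0 * (p1 t * M12 + p2 t * M22) * e

private theorem evM1 {a b c d : ℤ} {t : K} {x : ZMod (5 ^ r)} {y : ZMod (5 ^ s)}
    (h : Rp a b c d t x y) (t' : K) (M11 M12 M21 M22 k0 : ℤ) (hk : ¬ (5 : ℤ) ∣ k0)
    (n1 : p1 t * M11 + p2 t * M21 = k0 * p1 t')
    (n2 : p1 t * M12 + p2 t * M22 = k0 * p2 t')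
    (n3 : p3 t * M11 + p4 t * M21 = k0 * p3 t')
    (n4 : p3 t * M12 + p4 t * M22 = k0 * p4 t') :
    mV (W w) a b c d M11 M12 M21 M22 = w t' x y := by
  obtain ⟨c', e, hp⟩ := h
  unfold mV
  refine ev hp t' (m := pe t) (k := k0) (pe_nd t) hk ?_ ?_ ?_ ?_
  · linear_combination (a * p4 t - b * p3 t) * n1 + (-a * p2 t + b * p1 t) * n3 -
      (a * M11 + b * M21) * e0 t
  · linear_combination (a * p4 t - b * p3 t) * n2 + (-a * p2 t + b * p1 t) * n4 -
      (a * M12 + b * M22) * e0 t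
  · linear_combination (5 * c') * n1 + (-c * p2 t + d * p1 t) * n3 -
      (c * M11 + d * M21) * e0 t + (p1 t * M11 + p2 t * M21) * e
  · linear_combination (5 * c') * n2 + (-c * p2 t + d * p1 t) * n4 -
      (c * M12 + d * M22) * e0 t + (p1 t * M12 + p2 t * M22) * e

/-! ### the tables -/

private noncomputable def vT (F : Fin 5 → ZMod (5 ^ r) → ZMod (5 ^ s) → R) :
    K → ZMod (5 ^ r) → ZMod (5 ^ s) → R
  | .k0 => fun x y => F 0 x y
  | .k4 => fun x y => -F 3 x y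
  | .k1 => fun x y => -F 2 x y
  | .k3 => fun x y => tr5 19 (-6) 7 (-11) (F 2) x y
  | .ki => fun x y => -tr5 1 1 0 1 (F 0) x y
  | .k2 => fun x y => tr5 24 (-11) 7 (-16) (F 3) x y

private noncomputable def bT (F : Fin 5 → ZMod (5 ^ r) → ZMod (5 ^ s) → R) :
    K → ZMod (5 ^ r) → ZMod (5 ^ s) → R
  | .k0 => fun x y => F 1 x y + F 2 x y - tr5 14 (-3) 7 (-7) (F 1) x y + F 3 x y
  | .k4 => fun x y => -F 3 x y + tr5 14 (-3) 7 (-7) (F 1) x y
  | .k1 => fun x y => -(F 1 x y + F 2 x y)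
  | .k3 => fun x y => F 4 x y - tr5 24 (-11) 7 (-16) (F 3) x y -
      tr5 28 (-17) 7 (-21) (F 4) x y + tr5 1 1 0 1 (F 0) x y
  | .ki => fun x y => tr5 28 (-17) 7 (-21) (F 4) x y - tr5 1 1 0 1 (F 0) x y
  | .k2 => fun x y => -F 4 x y + tr5 24 (-11) 7 (-16) (F 3) x y

variable {F : Fin 5 → ZMod (5 ^ r) → ZMod (5 ^ s) → R}

private theorem ndet {a b c d : ℤ} (h : ¬ (5 : ℤ) ∣ a * d - b * c) (k : ℤ)
    (hk : ¬ (5 : ℤ) ∣ k) {m : ℤ} (hm : m = k * (a * d - b * c)) : ¬ (5 : ℤ) ∣ m := by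
  rw [hm]
  exact ndm hk h

/-- (i) -/
private theorem fS {a b c d : ℤ} (h : ¬ (5 : ℤ) ∣ a * d - b * c) :
    mV (W (vT F)) a b c d 0 (-1) 7 0 = -W (vT F) a b c d := by
  have dir : ∀ {a b c d : ℤ}, ¬ (5 : ℤ) ∣ a * d - b * c →
      ((5 : ℤ) ∣ c - 3 * d ∨ (5 : ℤ) ∣ d ∨ (5 : ℤ) ∣ c - 2 * d) →
      mV (W (vT F)) a b c d 0 (-1) 7 0 = -W (vT F) a b c d := by
    intro a b c d h hc
    rcases hc with hc | hc | hc
    · obtain ⟨x, y, hr⟩ := rp_of r s h .k3 (by simp only [p4, p3]; omega)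
      rw [evI hr, evM hr .k1 0 (-1) 7 0 19 (-6) 7 (-11) 1 7 (by decide) (by decide) (by decide)
        (by decide) (by decide) (by decide) (by decide) (by decide)]
      simp only [vT, tr5]
    · obtain ⟨x, y, hr⟩ := rp_of r s h .ki (by simp only [p4, p3]; omega)
      rw [evI hr, evM hr .k0 0 (-1) 7 0 1 1 0 1 1 (-7) (by decide) (by decide) (by decide)
        (by decide) (by decide) (by decide) (by decide) (by decide)]
      simp only [vT, tr5, neg_neg]
    · obtain ⟨x, y, hr⟩ := rp_of r s h .k2 (by simp only [p4, p3]; omega)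
      rw [evI hr, evM hr .k4 0 (-1) 7 0 24 (-11) 7 (-16) 1 7 (by decide) (by decide) (by decide)
        (by decide) (by decide) (by decide) (by decide) (by decide)]
      simp only [vT, tr5]
  have sym : ((5 : ℤ) ∣ 7 * d - 3 * (-c) ∨ (5 : ℤ) ∣ -c ∨ (5 : ℤ) ∣ 7 * d - 2 * (-c)) →
      mV (W (vT F)) a b c d 0 (-1) 7 0 = -W (vT F) a b c d := by
    intro hc
    have h1 := dir (a := 7 * b) (b := -a) (c := 7 * d) (d := -c)
      (ndet h 7 (by decide) (by ring)) hc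
    have h2 : mV (W (vT F)) (7 * b) (-a) (7 * d) (-c) 0 (-1) 7 0 = W (vT F) a b c d := by
      unfold mV
      exact W_scale h (-7) (by decide) (by ring) (by ring) (by ring) (by ring)
    have h3 : mV (W (vT F)) a b c d 0 (-1) 7 0 = W (vT F) (7 * b) (-a) (7 * d) (-c) := by
      unfold mV
      exact W_scale (ndet h 7 (by decide) (by ring)) 1 (by decide) (by ring) (by ring) (by ring)
        (by ring)
    rw [h3, ← h2, h1, neg_neg]
  obtain ⟨t, ht⟩ := ex c d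
  cases t <;> simp only [p4, p3] at ht
  · exact sym (by omega)
  · exact sym (by omega)
  · exact sym (by omega)
  · exact dir h (by omega)
  · exact dir h (by omega)
  · exact dir h (by omega)

/-- (ii) -/
private theorem fG {a b c d : ℤ} (h : ¬ (5 : ℤ) ∣ a * d - b * c) :
    W (bT F) a b c d + mV (W (bT F)) a b c d 3 (-1) 7 (-2) + mV (W (bT F)) a b c d 2 (-1) 7 (-3)
      = 0 := by
  obtain ⟨t, x, y, hr⟩ := rep r s h
  cases t
  · rw [evI hr, evM1 hr .k4 3 (-1) 7 (-2) 1 (by decide) (by decide) (by decide) (by decide)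
      (by decide), evM1 hr .k1 2 (-1) 7 (-3) 1 (by decide) (by decide) (by decide) (by decide)
      (by decide)]
    simp only [bT]
    abel
  · rw [evI hr, evM1 hr .k1 3 (-1) 7 (-2) 1 (by decide) (by decide) (by decide) (by decide)
      (by decide), evM1 hr .k0 2 (-1) 7 (-3) (-1) (by decide) (by decide) (by decide) (by decide)
      (by decide)]
    simp only [bT]
    abel
  · rw [evI hr, evM1 hr .k0 3 (-1) 7 (-2) (-1) (by decide) (by decide) (by decide) (by decide)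
      (by decide), evM1 hr .k4 2 (-1) 7 (-3) (-1) (by decide) (by decide) (by decide) (by decide)
      (by decide)]
    simp only [bT]
    abel
  · rw [evI hr, evM1 hr .ki 3 (-1) 7 (-2) (-1) (by decide) (by decide) (by decide) (by decide)
      (by decide), evM1 hr .k2 2 (-1) 7 (-3) (-1) (by decide) (by decide) (by decide) (by decide)
      (by decide)]
    simp only [bT]
    abel
  · rw [evI hr, evM1 hr .k2 3 (-1) 7 (-2) 1 (by decide) (by decide) (by decide) (by decide)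
      (by decide), evM1 hr .k3 2 (-1) 7 (-3) 1 (by decide) (by decide) (by decide) (by decide)
      (by decide)]
    simp only [bT]
    abel
  · rw [evI hr, evM1 hr .k3 3 (-1) 7 (-2) 1 (by decide) (by decide) (by decide) (by decide)
      (by decide), evM1 hr .ki 2 (-1) 7 (-3) (-1) (by decide) (by decide) (by decide) (by decide)
      (by decide)]
    simp only [bT]
    abel

/-- (iii) -/
private theorem fC (hR : RelQ F) {a b c d : ℤ} (h : ¬ (5 : ℤ) ∣ a * d - b * c) :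
    mV (W (vT F)) a b c d 7 (-4) 14 (-7) - mV (W (bT F)) a b c d 7 (-4) 14 (-7) =
      -(W (vT F) a b c d - W (bT F) a b c d) := by
  have dir : ∀ {a b c d : ℤ}, ¬ (5 : ℤ) ∣ a * d - b * c →
      ((5 : ℤ) ∣ c ∨ (5 : ℤ) ∣ c + d ∨ (5 : ℤ) ∣ d) →
      mV (W (vT F)) a b c d 7 (-4) 14 (-7) - mV (W (bT F)) a b c d 7 (-4) 14 (-7) =
      -(W (vT F) a b c d - W (bT F) a b c d) := by
    intro a b c d h hc
    rcases hc with hc | hc | hc
    · obtain ⟨x, y, hr⟩ := rp_of r s h .k0 (by simp only [p4, p3]; omega)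
      rw [evI hr, evI hr, evM1 hr .k3 7 (-4) 14 (-7) 1 (by decide) (by decide) (by decide)
        (by decide) (by decide), evM1 hr .k3 7 (-4) 14 (-7) 1 (by decide) (by decide) (by decide)
        (by decide) (by decide)]
      have h0 := hR x y
      unfold DfQ at h0
      simp only [vT, bT]
      rw [← sub_eq_zero, ← h0]
      abel
    · obtain ⟨x, y, hr⟩ := rp_of r s h .k4 (by simp only [p4, p3]; omega)
      rw [evI hr, evI hr, evM hr .k1 7 (-4) 14 (-7) 14 (-3) 7 (-7) 1 1 (by decide) (by decide)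
        (by decide) (by decide) (by decide) (by decide) (by decide) (by decide),
        evM hr .k1 7 (-4) 14 (-7) 14 (-3) 7 (-7) 1 1 (by decide) (by decide)
        (by decide) (by decide) (by decide) (by decide) (by decide) (by decide)]
      simp only [vT, bT, tr5]
      abel
    · obtain ⟨x, y, hr⟩ := rp_of r s h .ki (by simp only [p4, p3]; omega)
      rw [evI hr, evI hr, evM hr .k2 7 (-4) 14 (-7) 28 (-17) 7 (-21) 1 1 (by decide) (by decide)
        (by decide) (by decide) (by decide) (by decide) (by decide) (by decide),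
        evM hr .k2 7 (-4) 14 (-7) 28 (-17) 7 (-21) 1 1 (by decide) (by decide)
        (by decide) (by decide) (by decide) (by decide) (by decide) (by decide)]
      simp only [vT, bT, tr5]
      abel
  have sym : ((5 : ℤ) ∣ 7 * c + 14 * d ∨ (5 : ℤ) ∣ (7 * c + 14 * d) + (-4 * c - 7 * d) ∨
      (5 : ℤ) ∣ -4 * c - 7 * d) →
      mV (W (vT F)) a b c d 7 (-4) 14 (-7) - mV (W (bT F)) a b c d 7 (-4) 14 (-7) =
      -(W (vT F) a b c d - W (bT F) a b c d) := by
    intro hc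
    have hd : ¬ (5 : ℤ) ∣ (7 * a + 14 * b) * (-4 * c - 7 * d) - (-4 * a - 7 * b) * (7 * c + 14 * d) :=
      ndet h 7 (by decide) (by ring)
    have h1 := dir (a := 7 * a + 14 * b) (b := -4 * a - 7 * b) (c := 7 * c + 14 * d)
      (d := -4 * c - 7 * d) hd hc
    have h2 : ∀ w : K → ZMod (5 ^ r) → ZMod (5 ^ s) → R, mV (W w) (7 * a + 14 * b) (-4 * a - 7 * b)
        (7 * c + 14 * d) (-4 * c - 7 * d) 7 (-4) 14 (-7) = W w a b c d := by
      intro w
      unfold mV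
      exact W_scale h (-7) (by decide) (by ring) (by ring) (by ring) (by ring)
    have h3 : ∀ w : K → ZMod (5 ^ r) → ZMod (5 ^ s) → R, mV (W w) a b c d 7 (-4) 14 (-7) =
        W w (7 * a + 14 * b) (-4 * a - 7 * b) (7 * c + 14 * d) (-4 * c - 7 * d) := by
      intro w
      unfold mV
      exact W_scale hd 1 (by decide) (by ring) (by ring) (by ring) (by ring)
    rw [h2, h2] at h1
    rw [h3, h3, h1, neg_neg]
  obtain ⟨t, ht⟩ := ex c d
  cases t <;> simp only [p4, p3] at ht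
  · exact dir h (by omega)
  · exact dir h (by omega)
  · exact sym (by omega)
  · exact sym (by omega)
  · exact dir h (by omega)
  · exact sym (by omega)

end

private theorem one5 {m : ℤ} (h : m = 1) : ¬ (5 : ℤ) ∣ m := by
  rw [h]
  decide

/-- Module ExA. -/
theorem hExA (_ht : S5Trm) : TExA := by
  intro R _ r s F hR
  refine ⟨W (vT F), W (bT F), ?_, ?_, ?_, ?_, ?_, ?_⟩
  · intro a b c d h _
    exact ⟨W_scale (one5 h) (-1) (by decide) (by ring) (by ring) (by ring) (by ring),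
      W_scale (one5 h) (-1) (by decide) (by ring) (by ring) (by ring) (by ring)⟩
  · intro a b c d h _
    exact fG (one5 h)
  · intro a b c d h _
    have h5 := one5 h
    -- C(g_i) = - V(g_i S') + B(g_i S')
    have c1 := fC (F := F) hR (a := a * 2 + b * 7) (b := a * (-1) + b * (-3)) (c := c * 2 + d * 7)
      (d := c * (-1) + d * (-3)) (ndet h5 1 (by decide) (by ring))
    have c2 := fC (F := F) hR (a := a * 3 + b * 14) (b := a * (-2) + b * (-9)) (c := c * 3 + d * 14)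
      (d := c * (-2) + d * (-9)) (ndet h5 1 (by decide) (by ring))
    have c3 := fC (F := F) hR (a := a * 1 + b * 7) (b := a * (-1) + b * (-6)) (c := c * 1 + d * 7)
      (d := c * (-1) + d * (-6)) (ndet h5 1 (by decide) (by ring))
    have hd0 : ¬ (5 : ℤ) ∣ (7 * b) * (-c - 7 * d) - (-a - 7 * b) * (7 * d) :=
      ndet h5 7 (by decide) (by ring)
    have g0 := fG (F := F) (a := 7 * b) (b := -a - 7 * b) (c := 7 * d) (d := -c - 7 * d) hd0
    have s1 := fS (F := F) (a := a * 1 + b * 7) (b := a * 0 + b * 1) (c := c * 1 + d * 7)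
      (d := c * 0 + d * 1) (ndet h5 1 (by decide) (by ring))
    have s2 := fS (F := F) (a := a * 2 + b * 7) (b := a * 1 + b * 4) (c := c * 2 + d * 7)
      (d := c * 1 + d * 4) (ndet h5 1 (by decide) (by ring))
    have s3 := fS (F := F) (a := a * 3 + b * 14) (b := a * 1 + b * 5) (c := c * 3 + d * 14)
      (d := c * 1 + d * 5) (ndet h5 1 (by decide) (by ring))
    have t1 : ∀ w : K → ZMod (5 ^ r) → ZMod (5 ^ s) → R,
        mV (W w) (a * 2 + b * 7) (a * (-1) + b * (-3)) (c * 2 + d * 7) (c * (-1) + d * (-3))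
          7 (-4) 14 (-7) = W w (7 * b) (-a - 7 * b) (7 * d) (-c - 7 * d) := by
      intro w
      unfold mV
      exact W_scale hd0 1 (by decide) (by ring) (by ring) (by ring) (by ring)
    have hd1 : ¬ (5 : ℤ) ∣ (-7 * a - 28 * b) * (2 * c + 7 * d) - (2 * a + 7 * b) * (-7 * c - 28 * d) :=
      ndet h5 7 (by decide) (by ring)
    have t2 : ∀ w : K → ZMod (5 ^ r) → ZMod (5 ^ s) → R,
        mV (W w) (a * 3 + b * 14) (a * (-2) + b * (-9)) (c * 3 + d * 14) (c * (-2) + d * (-9))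
          7 (-4) 14 (-7) = W w (-7 * a - 28 * b) (2 * a + 7 * b) (-7 * c - 28 * d) (2 * c + 7 * d) := by
      intro w
      unfold mV
      exact W_scale hd1 1 (by decide) (by ring) (by ring) (by ring) (by ring)
    have hd2 : ¬ (5 : ℤ) ∣ (-7 * a - 35 * b) * (3 * c + 14 * d) -
        (3 * a + 14 * b) * (-7 * c - 35 * d) :=
      ndet h5 7 (by decide) (by ring)
    have t3 : ∀ w : K → ZMod (5 ^ r) → ZMod (5 ^ s) → R,
        mV (W w) (a * 1 + b * 7) (a * (-1) + b * (-6)) (c * 1 + d * 7) (c * (-1) + d * (-6))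
          7 (-4) 14 (-7) = W w (-7 * a - 35 * b) (3 * a + 14 * b) (-7 * c - 35 * d)
          (3 * c + 14 * d) := by
      intro w
      unfold mV
      exact W_scale hd2 1 (by decide) (by ring) (by ring) (by ring) (by ring)
    have u1 : mV (W (bT F)) (7 * b) (-a - 7 * b) (7 * d) (-c - 7 * d) 3 (-1) 7 (-2) =
        W (bT F) (-7 * a - 28 * b) (2 * a + 7 * b) (-7 * c - 28 * d) (2 * c + 7 * d) := by
      unfold mV
      exact W_scale hd1 1 (by decide) (by ring) (by ring) (by ring) (by ring)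
    have u2 : mV (W (bT F)) (7 * b) (-a - 7 * b) (7 * d) (-c - 7 * d) 2 (-1) 7 (-3) =
        W (bT F) (-7 * a - 35 * b) (3 * a + 14 * b) (-7 * c - 35 * d) (3 * c + 14 * d) := by
      unfold mV
      exact W_scale hd2 1 (by decide) (by ring) (by ring) (by ring) (by ring)
    have v1 : mV (W (vT F)) (a * 1 + b * 7) (a * 0 + b * 1) (c * 1 + d * 7) (c * 0 + d * 1)
        0 (-1) 7 0 = W (vT F) (7 * b) (-a - 7 * b) (7 * d) (-c - 7 * d) := by
      unfold mV
      exact W_scale hd0 1 (by decide) (by ring) (by ring) (by ring) (by ring)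
    have v2 : mV (W (vT F)) (a * 2 + b * 7) (a * 1 + b * 4) (c * 2 + d * 7) (c * 1 + d * 4)
        0 (-1) 7 0 = W (vT F) (-7 * a - 28 * b) (2 * a + 7 * b) (-7 * c - 28 * d)
          (2 * c + 7 * d) := by
      unfold mV
      exact W_scale hd1 (-1) (by decide) (by ring) (by ring) (by ring) (by ring)
    have v3 : mV (W (vT F)) (a * 3 + b * 14) (a * 1 + b * 5) (c * 3 + d * 14) (c * 1 + d * 5)
        0 (-1) 7 0 = W (vT F) (-7 * a - 35 * b) (3 * a + 14 * b) (-7 * c - 35 * d)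
          (3 * c + 14 * d) := by
      unfold mV
      exact W_scale hd2 (-1) (by decide) (by ring) (by ring) (by ring) (by ring)
    rw [t1, t1] at c1
    rw [t2, t2] at c2
    rw [t3, t3] at c3
    rw [u1, u2] at g0
    rw [v1] at s1
    rw [v2] at s2
    rw [v3] at s3
    unfold mV
    have c1' := (neg_eq_iff_eq_neg.2 c1).symm
    have c2' := (neg_eq_iff_eq_neg.2 c2).symm
    have c3' := (neg_eq_iff_eq_neg.2 c3).symm
    rw [c1', c2', c3', s1, s2, s3]
    rw [← g0]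
    abel
  · intro α β γ δ a b c d hg _ hβ hγ h _
    obtain ⟨γ', hγ'⟩ := hγ
    have hr := res (a := α) (b := β * 5 ^ s) (c := γ') (d := δ) (one5 (by
      rw [← hg, hγ']; ring))
    exact ⟨W_left (one5 h) hr.1 hr.2 hβ ⟨γ', hγ'⟩ rfl rfl rfl rfl,
      W_left (one5 h) hr.1 hr.2 hβ ⟨γ', hγ'⟩ rfl rfl rfl rfl⟩
  · intro α β γ δ a b c d k1 k2 k3 k4 hg hβ hγ h e1 e2 e3 e4
    obtain ⟨γ', hγ'⟩ := hγ
    have hr := res (a := 7 * α) (b := β * 5 ^ s) (c := γ') (d := δ) (one5 (by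
      rw [← hg, hγ']; ring))
    have hd : ¬ (5 : ℤ) ∣ 7 * δ := ndm (by decide) hr.2
    have hN : ¬ (5 : ℤ) ∣ a * d - b * (7 * c) := one5 (by linear_combination h)
    have hl : ∀ w : K → ZMod (5 ^ r) → ZMod (5 ^ s) → R,
        W w (7 * α * a + β * (7 * c)) (7 * α * b + β * d) (7 * γ * a + 7 * δ * (7 * c))
        (7 * γ * b + 7 * δ * d) = W w a b (7 * c) d := fun w =>
      W_left hN hr.1 hd hβ ⟨7 * γ', by rw [hγ']; ring⟩ rfl rfl rfl rfl
    have hN2 : ¬ (5 : ℤ) ∣ (7 * α * a + β * (7 * c)) * (7 * γ * b + 7 * δ * d) -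
        (7 * α * b + β * d) * (7 * γ * a + 7 * δ * (7 * c)) := by
      have : (7 * α * a + β * (7 * c)) * (7 * γ * b + 7 * δ * d) -
        (7 * α * b + β * d) * (7 * γ * a + 7 * δ * (7 * c)) = 7 * (a * d - b * (7 * c)) := by
        linear_combination 7 * (a * d - b * (7 * c)) * hg
      rw [this]
      exact ndm (by decide) hN
    have hK : k1 * k4 - k2 * k3 = 1 := by
      rw [e1, e2, e3, e4]
      linear_combination (a * d - 7 * b * c) * hg + h
    have hK1 : ¬ (5 : ℤ) ∣ k1 * k4 - k2 * k3 := one5 hK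
    have hS := fS (F := F) hN2
    have q1 : mV (W (vT F)) (7 * α * a + β * (7 * c)) (7 * α * b + β * d)
        (7 * γ * a + 7 * δ * (7 * c)) (7 * γ * b + 7 * δ * d) 0 (-1) 7 0 =
        W (vT F) k1 k2 k3 k4 := by
      unfold mV
      exact W_scale hK1 7 (by decide) (by rw [e1]; ring) (by rw [e2]; ring) (by rw [e3]; ring)
        (by rw [e4]; ring)
    have hV : W (vT F) k1 k2 k3 k4 = -W (vT F) a b (7 * c) d := by
      rw [← q1, hS, hl]
    refine ⟨hV, ?_⟩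
    have hC := fC (F := F) hR hN2
    rw [hl, hl] at hC
    have q2 : ∀ w : K → ZMod (5 ^ r) → ZMod (5 ^ s) → R,
        mV (W w) (7 * α * a + β * (7 * c)) (7 * α * b + β * d)
        (7 * γ * a + 7 * δ * (7 * c)) (7 * γ * b + 7 * δ * d) 7 (-4) 14 (-7) =
        mV (W w) k1 k2 k3 k4 2 (-1) (-7) 4 := by
      intro w
      unfold mV
      refine W_scale ?_ 7 (by decide) (by rw [e1, e2]; ring) (by rw [e1, e2]; ring)
        (by rw [e3, e4]; ring) (by rw [e3, e4]; ring)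
      exact ndet hK1 1 (by decide) (by ring)
    rw [q2, q2] at hC
    rw [hC, hV]
    abel
  · intro x y a b c d h _ hx hy
    have hr := res (a := a) (b := b) (c := c) (d := d) (one5 (by linear_combination h))
    have hp : Rp a b (5 * c) d .k0 x y := by
      refine ⟨c, by simp only [p4, p3]; ring, ?_⟩
      have : Pt a b c d x y := ⟨hr.1, hr.2, hx, hy⟩
      exact pt_scale (k := 1) this (by decide) (by simp only [p4, p3]; ring)
        (by simp only [p1, p2]; ring) (by ring) (by simp only [p1, p2]; ring)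
    have h5 : ¬ (5 : ℤ) ∣ a * d - b * (5 * c) := one5 h
    have v1 : mV (W (vT F)) a b (5 * c) d 2 (-1) 7 (-3) = -F 2 x y :=
      evM1 hp .k1 2 (-1) 7 (-3) 1 (by decide) (by decide) (by decide) (by decide) (by decide)
    have b1 : mV (W (bT F)) a b (5 * c) d 2 (-1) 7 (-3) = -(F 1 x y + F 2 x y) :=
      evM1 hp .k1 2 (-1) 7 (-3) 1 (by decide) (by decide) (by decide) (by decide) (by decide)
    have v4 : mV (W (vT F)) a b (5 * c) d 3 (-1) 7 (-2) = -F 3 x y :=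
      evM1 hp .k4 3 (-1) 7 (-2) 1 (by decide) (by decide) (by decide) (by decide) (by decide)
    have v2 : mV (W (vT F)) a b (5 * c) d (-14) 5 (-21) 7 = tr5 24 (-11) 7 (-16) (F 3) x y :=
      evM1 hp .k2 (-14) 5 (-21) 7 (-1) (by decide) (by decide) (by decide) (by decide) (by decide)
    have b2 : mV (W (bT F)) a b (5 * c) d (-14) 5 (-21) 7 =
        -F 4 x y + tr5 24 (-11) 7 (-16) (F 3) x y :=
      evM1 hp .k2 (-14) 5 (-21) 7 (-1) (by decide) (by decide) (by decide) (by decide) (by decide)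
    refine ⟨evI hp, ?_, ?_, ?_, ?_⟩
    · rw [v1, b1]
      abel
    · rw [v1, neg_neg]
    · rw [v4, neg_neg]
    · have hC := fC (F := F) hR (a := a * 4 + b * 7) (b := a * (-3) + b * (-5))
        (c := 5 * c * 4 + d * 7) (d := 5 * c * (-3) + d * (-5))
        (ndet h5 1 (by decide) (by ring))
      have q : ∀ w : K → ZMod (5 ^ r) → ZMod (5 ^ s) → R,
          mV (W w) (a * 4 + b * 7) (a * (-3) + b * (-5)) (5 * c * 4 + d * 7)
          (5 * c * (-3) + d * (-5)) 7 (-4) 14 (-7) = mV (W w) a b (5 * c) d (-14) 5 (-21) 7 := by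
        intro w
        unfold mV
        refine W_scale ?_ 1 (by decide) (by ring) (by ring) (by ring) (by ring)
        exact ndet h5 7 (by decide) (by ring)
      rw [q, q, v2, b2] at hC
      have hC' := (neg_eq_iff_eq_neg.2 hC).symm
      have : mV (W (bT F)) a b (5 * c) d 4 (-3) 7 (-5) - mV (W (vT F)) a b (5 * c) d 4 (-3) 7 (-5) =
          -(W (vT F) (a * 4 + b * 7) (a * (-3) + b * (-5)) (5 * c * 4 + d * 7)
            (5 * c * (-3) + d * (-5)) - W (bT F) (a * 4 + b * 7) (a * (-3) + b * (-5))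
            (5 * c * 4 + d * 7) (5 * c * (-3) + d * (-5))) := by
        unfold mV
        abel
      rw [this, hC']
      abel

end Pool.Agent.Helper2.T7
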